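import Mathlib
import Pool.Agent.H845.Orb.Short
import Pool.Agent.H857.MX.Good
import Pool.Graph.R_pool_sql_team_seeded_2aa45f1a.Q64.NH.Thms

/-!
# The numerical Hodge standard conjecture for `A × B`, for arbitrary abelian varieties `B`, all
# polarizations, and all abelian varieties `A` whose Weil numbers satisfy an exact criterion, in
# terms of factorizations over the CM fields

**The family.** Let `p` be a prime number, `q = p ^ a`, let `K i` (`i` in a finite set) be **any** CM
fields (they may be dependent, have the same Galois closure, or be equal), and `π i` Weil numbers for
`q` in `K i` such that each power `(π i) ^ n`, `n ≥ 1`, generates `K i` (`IsSimpleWeil`; by Honda and
Tate this is the situation for the simple factors of any abelian variety over a finite field, after a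
finite extension of the field, except for the supersingular factors).

**The criterion** (`IsFree`). Decompose the minimal polynomials (over `ℚ`) of all the numbers `π k`
into monic irreducible factors `g` over the field `K i`, and let `ratio g = g(0) / conj g(0)`. The
number `π i` is free if no positive power of `π i / conj (π i)` is a product of powers of the numbers
`ratio g`, where `g` runs over all these factors except for `X - π i` and `X - conj (π i)`. So one has
to look for multiplicative relations between a few elements of the group `K i ^×`; no Galois closure is
needed. **All `π i` are free if and only if there are no relations between the conjugates of the
`π i`, except for the trivial ones** (the angle rank is maximal; the number `1` is free from the `π i`),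
that is, if and only if there are no exotic Tate classes on the powers of the abelian varieties of the
`π i`.

**The theorem.** Suppose that all `π i` are free. Let `f i` be monic polynomials whose complex
roots are conjugates of `π i` (`IsPolyOf`), for instance powers of the minimal polynomials, and
let `A` be an abelian variety over the field with `Q = q ^ s` elements, `s > 0`, which is
isogenous to a product of powers of abelian varieties which come from the field with `q` elements
and have the characteristic polynomials of Frobenius `f i`. Let `B` be **any** abelian variety
over the field with `Q` elements such that the eigenvalues of Frobenius on the cohomology of `B`
are free from the `π i` (`FreeFrom`).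

**For every polarization `L` of `A × B` (over the algebraic closure) the numerical Hodge standard
conjecture holds for `A × B` and `L` if and only if it holds for `B` and the restriction `M` of
`L` to `B`.** More precisely (`NumHodgeReduces`): each divisor `L` on `A × B` is equivalent to a
sum `D × B + A × M`; if `L` satisfies hard Lefschetz, so do `D` and `M`; and if `D` is positive on
the classes on `A` generated by divisors (for ample `D` this is known: Milne, Ancona), then the
conjecture holds for `(A × B, L)` if and only if it holds for `(B, M)`. So Q1 for `A × B` and all
polarizations is equivalent to Q1 for `B` and all polarizations. No case of the Tate conjecture is
assumed. For example, Q1 is true for all `A × B` as above with `dim B ≤ 4`, because it is known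
for abelian fourfolds (Ancona).

The theorem is stated with a Weil cohomology `W` with algebraically closed coefficient field such
that numerical and homological equivalence coincide on `B`; for abelian varieties over finite
fields there are infinitely many such `ℓ` (Clozel). The numerical statements do not depend on `W`.
(`B` may be any smooth projective variety with this property.)

What is used of `A` are known theorems (`IsAbelianFrobenius`): the cohomology is generated by
`H^1`, on which Frobenius is diagonalizable with powers of roots of the `f i` as eigenvalues
(Weil), the theorem of Tate on divisors, and that Frobenius acts on cycles of codimension `j` as
`Q ^ j`, over a finite extension.

Here a complex number `ρ ≠ 0` is free from the `π i` (`FreeFrom`) if a relation `ρ ^ N ∏ (φ (π i))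
^ n(φ) = q ^ c`, `N ≥ 1`, is possible only if `n(φ) = n(conj φ)` for all `φ`.

**The criteria** (`FreeCriteriaShort`, part two of the theorem).

* The exactness of the criterion, see above. It is decided by the `p`-adic absolute values of the
  fields `K i`, that is, by the slopes.
* If the fields `K i` are pairwise independent then it is sufficient to consider the `π i` one by one:
  all the other `ratio g` are one.
* **Several Weil numbers in the same fields.** Let the fields `K i` be pairwise independent, with
  flips (`HasFlip`: for two embeddings `φ`, `ψ` which are not equal or conjugate, there is an
  automorphism which fixes `φ` and conjugates `ψ`), and let `π i j` be several Weil numbers in each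
  `K i`. They are all free if and only if for each `i` the numbers `π i j / conj (π i j)` are
  multiplicatively independent. A CM field has flips if some prime number divides its discriminant
  exactly once (and not the discriminant of the maximal real subfield). These are the products of
  non-isogenous abelian varieties with the same CM field.
* **The exact criterion for `B`.** All numbers unrelated to the fields `K i` are free from the `π i`.
  A number `φ x` for an element `x` of a CM field `F` with `x * conj x = q ^ w` is free from the `π i`
  if and only if a positive power of `x / conj x` is a product of powers of the `ratio g`, `g` a factor
  over `F` of the minimal polynomial of some `π i`, only with exponents which are the same for `g` and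
  for the conjugate polynomial. So the fields of the eigenvalues of `B` may be related or equal to
  the fields `K i`.

**What was known.** The framework and the geometric part (`Q64.NH.numHodgeReduces`) are those of
the theorem `AllCMTypesTimes` of the library, for eigenvalues unrelated to the CM fields and in
terms of the absence of relations; for this question there are bounds for the number of the
exceptional slope types and isogeny classes. New here are the criterion, necessary and sufficient,
for arbitrary families in arbitrary dependent fields, and the varieties `B` with eigenvalues in
dependent fields.

**The proof.** Let there be a relation between the conjugates of the `π k` with an exponent which is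
not symmetric at an embedding `φ` of `K i`. The product of its images under the (finitely many
permutations induced by the) automorphisms that fix `φ` is a relation with invariant exponents and
still not symmetric at `φ`. The orbits of the stabilizer of `φ` on the embeddings of `K k` are the
factors of the minimal polynomial of `π k` over `K i`, and the products of the conjugates over the
orbits are the constant terms of the factors, up to sign. So the relation is a relation in `K i`.
-/

set_option autoImplicit false

namespace Pool.Agent.Results.MP_c0b458_ag.FactorizationCriterion

open NumberField Polynomial Pool.Agent.Y1.CT Pool.Agent.Y156.P Pool.Agent.H845.Orb
  Pool.Agent.H857.MX Pool.Agent.Q64.NH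

/-- **The numerical Hodge standard conjecture for `A × B` and a polarization is equivalent to the one for
`B` and the restricted polarization, for all abelian
varieties `A` whose Weil numbers satisfy the criterion, which is necessary and sufficient for the absence
of relations, and all `B` with eigenvalues free from these Weil numbers.** -/
theorem result :
    (∀ (p : ℕ) [Fact p.Prime] (a : ℕ), 0 < a → ∀ (I : Type) [Fintype I] (K : I → Type)
      [∀ i, Field (K i)] [∀ i, NumberField (K i)] [∀ i, IsCMField (K i)] (π : ∀ i, K i)
      (f : I → ℤ[X]), (∀ i, IsSimpleWeil p a (π i)) → (∀ i, IsFree π i) →
      (∀ i, IsPolyOf (π i) (f i)) → NumHodgeReduces (RootsIn (FreeFrom (p ^ a) π)) (p ^ a) f) ∧
    FreeCriteriaShort :=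
  ⟨fun _ _ _ ha _ _ _ _ _ _ _ _ hπ hfree hf =>
    numHodgeReduces (Nat.one_lt_pow ha.ne' (Fact.out : Nat.Prime _).one_lt)
      (good_of_noRel (noRel_free hπ hfree hf) not_freeFrom_zero), freeCriteriaShort_hold⟩

end Pool.Agent.Results.MP_c0b458_ag.FactorizationCriterion
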