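import Pool.Agent.H844.Num.Asm

/-!
# A Cartan involution of the cycles modulo numerical equivalence on the powers of a variety

Let `X` be a smooth projective variety with a divisor `D` with `deg D ^ dim X > 0`, for which some
Weil cohomology theory `W` with a coefficient field isomorphic to the field of complex numbers
satisfies the hard Lefschetz theorem and the standard conjecture of Lefschetz type. For abelian
varieties over algebraically closed fields of any characteristic and ample `D` all this is known
(Deligne, Lieberman, Kleiman), so for them the theorem is unconditional; nothing is assumed about
the conjecture D for `W`, and no positivity. `P` is a point (a variety of dimension zero in the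
class of varieties under consideration).

**Theorem.**

1. On the products of copies of `X` (and `P`) there is a Weil cohomology theory `W'` with
   coefficients in a field isomorphic to the complex numbers, with the same Betti numbers, for which
   homological and numerical equivalence agree on all these varieties and hard Lefschetz holds for
   `D`. So the real algebraic classes of `W'` on `X^n` (`IsRealAlg`) are the cycles modulo
   *numerical* equivalence with real coefficients.
2. There is a *Cartan involution* (`IsCartan`): a linear automorphism `t` of `H'(X)` which, with its
   tensor powers on the spaces `H'(X^n)`, preserves the degrees, the multiplication by the class of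
   the divisor and the Poincare duality, maps real classes of cycles to such classes, is an
   involution on them, and satisfies the twisted relations of Hodge and Riemann
   `(-1)^j deg (t(x) · x · D^(d - 2 j)) > 0` for all primitive classes `x ≠ 0` of codimension `j` on
   all powers `X^n` (`d = n dim X`).
3. For each such involution and each `n` the **numerical** standard conjecture of Hodge type holds
   for `X^n` if and only if `t` is the identity on the real classes of cycles on `X^n`.

So the real cycles modulo numerical equivalence on the powers of an abelian variety have a grading
by `ℤ / 2`, compatible with exterior products and composition of correspondences, such that the form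
of the conjecture is positive definite on the even and negative definite on the odd primitive
classes: the conjecture can only fail by a group of order two.

The proof: the limit (ultraproduct) construction of helper843 along the numerical weight filtrations
is carried out along a sequence of products of copies of `X` and `P`; this gives a theory in the same
universe with a coefficient field of the cardinality of the continuum, which is algebraically closed,
hence isomorphic to the field of complex numbers. To this theory the method of Kempf and Ness of
`MP_361a6f_ag.CartanInvolution` (the case where the conjecture D is assumed for `W`) applies.
-/

open CategoryTheory AlgebraicGeometry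

universe u v

namespace Pool.Agent.Results.MP_c0b458_ag.NumericalCartanInvolution

open Pool.Agent.H914 Pool.Agent.H914.VarClass Pool.Agent.H914.VarClass.Obj
  Pool.Agent.H914.WeilCohomology Pool.Agent.Y133.Half Pool.Agent.Q55 Pool.Agent.H844.Cartan
  Pool.Agent.H844.Num

variable {k : Type u} [Field k] {𝒱 : VarClass k} {ops : CycleOps 𝒱} {X P : 𝒱.Obj} {D : X.Cycles}

/-- **Cartan involutions of the cycles modulo numerical equivalence.** Here `pw X n` is the product
of `n + 1` copies of `X`, `pwDiv ops D n` is the sum of the pull-backs of `D`, and `self X P` is `X`,
considered in the class of the products of copies of `X` and `P`. -/
theorem result (W : WeilCohomology.{u, 0} ops) (hC : Nonempty (ℂ ≃+* W.K))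
    (hP : P.dim = 0) (hD : X.IsCyc 1 D)
    (hdeg : 0 < X.V.degCycle (divPow ops D X.dim X.V.fundCycle))
    (hHL : HardLefschetz W X D) (hB : LefschetzB W X D) :
    ∃ (W' : WeilCohomology.{u, 0} (onProducts ops X P)) (σ : ℂ ≃+* W'.K),
      (∀ Y, HomEqNum W' Y) ∧ (∀ Y i, W'.betti Y i = W.betti (up Y) i) ∧
      HardLefschetz W' (self X P) D ∧ (∃ t, IsCartan W' σ (self X P) D t) ∧
      ∀ t, IsCartan W' σ (self X P) D t → ∀ n, (NumHodge ops (pw X n) (pwDiv ops D n) ↔
        ∀ j x, IsRealAlg W' σ (pw (self X P) n) j x → t n x = x) :=
  (Pool.Agent.H844.Num.main W hC hP hD hdeg hHL hB).1

end Pool.Agent.Results.MP_c0b458_ag.NumericalCartanInvolution
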