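import Mathlib
import Pool.Agent.H298.Exo.Cor
import Pool.Agent.H298.Exo.NumMain
import Pool.Agent.H298.Core.Double

/-!
# The numerical Hodge standard conjecture for abelian varieties with exotic classes: small factors
with arbitrary relations, free factors of all dimensions, and factors of all dimensions over an
imaginary quadratic field

**In short.** Let `A` be an abelian variety over an algebraic closure of the field with `p`
elements, isogenous to a product of powers of simple abelian varieties `A i` (for simplicity with
commutative algebras of endomorphisms, the CM fields `K i`) and of a supersingular one. Suppose that
the fields `K i` are *separated* (see below; this is a condition on pairs of fields only, satisfied
if the composita have the maximal degrees), and that each `A i` satisfies one of the following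
conditions **on its own**.

* `A i` has **dimension at most five**, and there is no condition on its Weil number: all relations
  between its Frobenius eigenvalues are allowed. More generally some of the `A i` can be combined to
  blocks of abelian varieties of dimension at most three, or of total dimension at most five; the
  fields in one block can be arbitrarily dependent.
* `A i` has any dimension and is *free*: there are no relations between its eigenvalues. By the
  criteria below this is a condition on the Galois group and on norms only, for large classes of
  fields (small cores), and not a condition on the Newton polygon.
* `K i` contains a given imaginary quadratic field `k`, the dimension is arbitrary, and all relations
  come from `k`; this is so for all Weil numbers (with arbitrary Newton polygons) if the dimension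
  is a prime number, or if the Galois group over `k` is doubly transitive on the embeddings over `k`.
  As soon as there are two factors of this kind there are **exotic** Tate classes, which are not
  generated by divisors and for which the Tate conjecture is not known.

Then **the numerical Hodge standard conjecture** (the question of this page) holds for `A`, for all
polarizations and codimensions, and for all abelian varieties over arbitrary fields of
characteristic `p` (and all smooth projective varieties) which specialize to such an `A` together
with an ample divisor: the classes are taken modulo numerical equivalence, for the cycle classes in
`l`-adic cohomology for any prime number `l` (crystalline for `l = p`).

**The setting.** (As in MP_ffcd14_ag.ExoticQuadraticTypes, by helper395.) By theorems of Honda and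
Tate each abelian variety over the algebraic closure of the field with `p` elements is isogenous to
the reduction `Y` of an abelian variety of CM type. So `Y` is modelled by `RedAV` (library): a
finite product of CM types with Weil numbers which satisfy the formula of Shimura and Taniyama. The
`l`-adic cohomology of `Y` consists of the alternating forms on `F.Ω l ⊗ H1 Y` (`Fun`), where
`F.Ω l` is an algebraically closed field which contains the `l`-adic numbers. The sets of the
families of classes of algebraic cycles are a datum `C` with the properties `IsTheory`, all of which
are known theorems on algebraic cycles: formal properties, rational degrees independent of `l`, the
theorem of Tate for divisors, the algebraicity of the Hodge classes of degree two (Lefschetz) and of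
the split Weil classes in the dimensions four and six (Markman), rationality of the intersection
numbers of algebraic classes with Hodge classes of the lifting, the positivity of the Rosati
involution (Weil), and algebraic classes are Tate classes.

**The Weil numbers.** `W i`, `i` in a finite set `I`, are Weil numbers `π i` of weight `a` in CM
fields `K i` (`WeilNum`). Given are an imaginary quadratic field `k` (`Q : ImagQuad`), a subset `J`
of `I` and embeddings of `k` into the fields `K i`, `i` in `J`, and a function `β` whose value
`some b` means that `π i` is in the block `b`, and whose value `none` means that `π i` is in no
block. The class of abelian varieties (`OfNumbersOn`): each factor of `Y` is supersingular or some
power of its Frobenius endomorphism is a power of one of the `π i`; and for the `i` in `J` and in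
the blocks its CM field is `K i` (the algebra of endomorphisms is commutative).

**Theorem.** The first two statements of `result` are special cases of the general theorem: (A) *let
`K i` be pairwise unlinked CM fields of degree at most ten; then the conjecture holds for all
Weil numbers in these fields*; (B) *let `K i` be CM fields which contain `k` and are pairwise
disjoint over `k`, such that `[K i : k]` is a prime number or the automorphisms over `k` are doubly
transitive on the embeddings over `k`; then the conjecture holds for all Weil numbers all powers of
which generate the fields `K i`, with arbitrary Newton polygons*.

**The general theorem, part one.** Suppose that the fields are *separated* (`Separated`): for
`i ≠ j` which are not both in `J` and not in one block, `K i` and `K j` are *unlinked*, that is, for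
all complex embeddings `φ` of `K i` and `ψ` of `K j` some automorphism of the complex numbers fixes `φ` and maps
`ψ` to its complex conjugate; and for `i ≠ j` in `J` the fields are *disjoint* over `k`, that is, the
automorphisms which fix an embedding of `K i` over `k` are transitive on the embeddings of `K j`
over `k`. Then **the relations of the whole family are determined by the relations of the single
Weil numbers** outside of the blocks: the relations split (`RelationsSplit`), that is, they are
trivial for `i` outside of `J` and of the blocks, constant over `k` for `i` in `J`, and their parts
in a block belong to (multiples of) relations in this block, **if and only if** each `π i` outside of
`J` and of the blocks is free (`IsFree`: all relations between its own conjugates are trivial), and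
for each `i` in `J` the relations between the conjugates of `π i` come from `k` (`ComesFrom`).
Nothing is assumed about the Weil numbers in the blocks.

(The conditions on the fields are optimal from the point of view of representation theory: `K i` and
`K j` are unlinked if and only if there is no equivariant map different from zero between the
functions on their embeddings which are odd under complex conjugation, and disjoint over `k` if and
only if the functions on their embeddings over `k` have only the constants in common.)

**Part two.** If the relations split and the blocks are small (`IsSmall`: the fields in a block have
degree at most six, or the sum of their degrees is at most ten and they are not of degrees two and
eight; and if two of them have the same Galois closure they are Galois over the rational numbers)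
then `NumHodgeFor` holds: for all `l`, all `Y` of the class and all polarizations `α` compatible with
the complex multiplications of the lifting the conjecture is true in all codimensions; and for all
varieties `X` which specialize to `Y` (`SpecializesTo`: the ring `R` of algebraic cycles on `X`
modulo homological equivalence is mapped injectively into the one of `Y`, and the ample divisor to
the class of `α`; by theorems of Honda, Tate and Zink each polarized abelian variety over an
algebraic closure of a finite field is isogenous to one with such an `α`) and satisfy the conjecture
`A` of Lefschetz type, for instance for all abelian varieties `X` (Lieberman, Kleiman), **the
numerical Hodge standard conjecture in the form of this page** (`NumHodge`): if `x` is a class of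
codimension `j` which is primitive modulo numerical equivalence and not numerically trivial, then
`(-1) ^ j deg (x x D ^ m) > 0`, `2 j + m = dim X`.

**Part three: criteria** (`SingleCriteria`, for Weil numbers all powers of which generate their
fields). `π` is free if its field has a small core (`IsCoreWeil`; by `AllCriteria` this is so for
example if the degree of the Galois closure of `K` over the Galois closure of the maximal real
subfield is larger than `2 ^ (g / 3)`, `2 g = [K : ℚ]`; or larger than `2 ^ (g / 4)` and `π` is
ordinary; or if the maximal real subfield is doubly transitive, `g` is odd or `g - 1` is prime or `g` is none
of the numbers `10, 16, 26, 28, 36, …` of `TwoGraphDegree`, or triply transitive, and no norm of `π`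
to an imaginary quadratic field is supersingular); if `g` is a prime number, `π` is free if and only if no norm to
an imaginary quadratic subfield is supersingular. The relations of `π` come from `k` if the
functions with sum zero on the embeddings over `k` are irreducible (`OverCriteria`: if `[K : k]` is
prime or the automorphisms over `k` are doubly transitive), or if `[K : ℚ] ≥ 6` and the maximal real
subfield is triply transitive, or if one slope over `k` dominates the others. `SeparationCriteria`:
two fields are unlinked if a compositum has the maximal degree, or if a prime number divides the
discriminant of one of them, but not the one of its maximal real subfield and the one of the other
field; two fields over `k` are disjoint over `k` if a compositum over `k` has the maximal degree.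

So all three kinds of factors can be combined: for example products of powers of abelian varieties
of dimension at most five with arbitrary Weil numbers and unlinked fields, multiplied by abelian
varieties of prime dimensions, or with doubly transitive fields over `k`, with multiplication by one
imaginary quadratic field `k`.

**The proof.** Decoupling: let `n` be a relation and `φ` an embedding of `K i`. The sum of the
translates of `n` under the automorphisms which fix `φ` is a relation whose odd part is zero on
the fields unlinked from `K i`, and constant over `k` on the `K j` disjoint from `K i` over `k`. For a
free `π i` this gives a relation in one field, up to trivial ones, and so the odd part of `n` at
`φ` is zero. In the case of `J` one has to remove the parts in the other fields `K j`: one compares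
the translates for two embeddings `φ`, `φ'` over `k` (the sums of the odd parts over `k` are the same)
and obtains a relation in `K i` alone. For blocks: the relations are a module under the
automorphisms; the orthogonal projection of a relation to the orthogonal complement of the relations
in the block has, by the same averaging, zero odd part on the block. So the exponents of the
Frobenius eigenvalues of `Y` split into elementary relations (in the sense of the library: the Tate
classes are generated by divisors, Weil classes and classes on abelian varieties of dimension at
most five) and relations which are invariant over `k`. For those the positivity is the
product formula for the Hilbert symbol (library, `QuadraticRelations`): the coefficients of the class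
at an exotic monomial and at its complex conjugate are conjugate in `k ⊗ ℚ_l` for all `l`, and their
product does not depend on `l`.

**What was known.** Divisor classes (Milne), abelian fourfolds (Ancona). The library has the
conjecture for abelian varieties of dimension at most five, for products of elliptic curves and
surfaces, and if all relations are elementary (`DimensionFiveAllFields`), and if the relations are
generated by elementary ones and relations invariant over `k` (`QuadraticRelations`, applied to
relations of rank one and to simple abelian varieties of different prime dimensions,
`PrimeDimensions`). MP_ffcd14_ag.ExoticQuadraticTypes (helper395) has families with local types
outside of `J` and linearly disjoint fields over `k`. New here: the decoupling theorem (an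
equivalence, one Weil number at a time), any number of blocks of small abelian varieties with
arbitrary relations together with free and exotic factors of all dimensions, and the fields with
small cores as free factors. The homological statements for `l` not split in `k` are in
MP_361a6f_ag.SeparatedFactors. It contains the abelian varieties `A` of the former hand-in
`SmallCoreFields` on this page (without the factor `B`).
-/

set_option autoImplicit false

namespace Pool.Agent.Results.MP_c0b458_ag.SeparatedFactors

open NumberField Module Pool.Agent.H395.Cyc Pool.Agent.H298.Exo Pool.Agent.H298.Core

/-- **The numerical Hodge standard conjecture for products of small, free and exotic abelian
varieties with separated fields.** First the case of unlinked fields of degree at most ten, then the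
case of fields which are disjoint over an imaginary quadratic field, then the general theorem and
the criteria. -/
theorem result (p : ℕ) [Fact p.Prime] (ν : PadicAlgCl p ≃+* ℂ) (a : ℕ) (ha : 0 < a) :
    (∀ (I : Type) [Fintype I] (W : I → WeilNum p a), (∀ i, finrank ℚ (W i).E ≤ 10) →
      (∀ i j, i ≠ j → AreUnlinked (W i).E (W j).E) → NumHodgeFor ν Set.univ W) ∧
    (∀ (Q : ImagQuad) (I : Type) [Fintype I] (W : I → WeilNum p a)
      (θ : ∀ i, FHom Q.k (W i).E), (∀ i, Generates (W i).num) → (∀ i, PrimeOrDouble Q (θ i)) →
      (∀ i j, i ≠ j → AreDisjoint Q (θ i) (θ j)) → NumHodgeFor ν Set.univ W) ∧
    (∀ (Q : ImagQuad) (I B : Type) [Fintype I] [Fintype B] (J : Set I) (β : I → Option B)
      (W : I → WeilNum p a) (θ : Embedded Q J W), (∀ i ∈ J, β i = none) →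
      (Separated Q J β W θ → (RelationsSplit Q J β W θ ↔
        (∀ i, i ∉ J → β i = none → IsFree (W i)) ∧
          ∀ i (hi : i ∈ J), ComesFrom Q (W i) (θ i hi))) ∧
      (RelationsSplit Q J β W θ → (∀ b, IsSmall W {i | β i = some b}) →
        NumHodgeFor ν {i | i ∈ J ∨ β i ≠ none} W)) ∧
    SingleCriteria p a ∧ SeparationCriteria ∧ AllCriteria ∧ OverCriteria :=
  ⟨fun _ _ _ hd hU => numHodgeFor_of (num_small ha hd hU), fun _ _ _ _ _ hg hE hD =>
    numHodgeFor_of (num_over ha hg hE hD),
    fun _ _ _ _ _ _ _ _ _ hβ => ⟨split_iff hβ, fun h hs =>
      numHodgeFor_of (num_of_split ha hβ hs h)⟩,
    singleCriteria ha, separationCriteria, allCriteria_hold, criteria⟩

end Pool.Agent.Results.MP_c0b458_ag.SeparatedFactors
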