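import Pool.Agent.H857.MX.Master
import Pool.Agent.H857.MX.Good
import Pool.Graph.R_pool_sql_team_seeded_2aa45f1a.Q64.NH.Thms

/-!
# MP_c0b458_ag: the numerical Hodge standard conjecture for `A × B`, for arbitrary abelian
varieties `B`, all polarizations, and all abelian varieties `A` but a set of isogeny classes of
the exact order of magnitude of its size

Let `g i` (`i` in a finite set `I`) be positive integers. For a prime power `q = p ^ a` let
`families g p a` be the finite set of the families `f i` of Weil polynomials of degrees `2 g i`
relative to `q` with integral Newton polygons. It contains the families of the characteristic
polynomials of the Frobenius endomorphisms of abelian varieties `A i` of dimensions `g i` over the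
field with `q` elements (Weil), which determine the `A i` up to isogeny (Tate). It has about `q ^
(∑ g i (g i + 1) / 4)` elements.

Let the `ρ k` be `r` Weil numbers of weights less than `c` with slopes in `(1 / D) ℤ`, for
instance the eigenvalues of Frobenius on the cohomology of an abelian variety over the field with
`q` elements. The family `f` is exceptional if there is a multiplicative relation between roots of
the `f i`, the numbers `ρ k` and `q`, up to roots of unity, which does not come from the pairs of
conjugate roots `z`, `q / z`.

1. The proportion of the exceptional families among all the families is of the exact order of
magnitude `∑ q ^ (- δ (g i) / 2)`, where `δ (g) = g` for `g ≠ 2` and `δ (2) = 1`: it is at most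
`C` times, and at least `1 / C` times this sum. The constant `C` depends only on the `g i`, on
`r`, `c` and `D` - not on `p`, `q` and the `ρ k`.

2. Let `f` be a family which is not exceptional, and let `A` be an abelian variety over the field
with `Q = q ^ s` elements, `s > 0`, which is isogenous to a product of powers of abelian varieties
`A i` with characteristic polynomials `f i`. Let `B` be **any** abelian variety over the field
with `Q` elements such that the eigenvalues of Frobenius on the cohomology of `B` lie, up to
powers, in the group generated by the `ρ k` and `q` (`Generated`).

**For every polarization `L` of `A × B` (over the algebraic closure) the numerical Hodge standard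
conjecture holds for `A × B` and `L` if and only if it holds for `B` and the restriction `M` of
`L` to `B`.** More precisely (`NumHodgeReduces`): each divisor `L` on `A × B` is equivalent to a
sum `D × B + A × M`; if `L` satisfies hard Lefschetz, so do `D` and `M`; and if `D` is positive on
the classes on `A` generated by divisors (for ample `D` this is known: Milne, Ancona), then the
conjecture holds for `(A × B, L)` if and only if it holds for `(B, M)`. So Q1 for `A × B` and all
polarizations is equivalent to Q1 for `B` and all polarizations. No case of the Tate conjecture is
assumed. For example, Q1 is true for all `A × B` as above with `dim B ≤ 4`, because it is known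
for abelian fourfolds (Ancona).

The theorem is stated with a Weil cohomology `W` with algebraically closed coefficient field such
that numerical and homological equivalence coincide on `B`; for abelian varieties over finite
fields there are infinitely many such `ℓ` (Clozel). The numerical statements do not depend on `W`.
(`B` may be any smooth projective variety with this property.)

What is used of `A` are known theorems (`IsAbelianFrobenius`): the cohomology is generated by
`H^1`, on which Frobenius is diagonalizable with powers of roots of the `f i` as eigenvalues
(Weil), the theorem of Tate on divisors, and that Frobenius acts on cycles of codimension `j` as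
`Q ^ j`, over a finite extension.

The framework and the geometric part (`Q64.NH.numHodgeReduces`) are those of the theorem
`AllCMTypesTimes` of the library, which bounds the number of the exceptional slope types of CM
fields and asks that the eigenvalues of the other factor are unrelated to these fields. In other
theorems of the library the exceptional set of isogeny classes has a proportion `O (q ^ (-1 / 6)
log q)`, without a lower bound, for other factors with eigenvalues in a group of small rank over a
fixed number field. New here are the arbitrary eigenvalues, the uniformity in `p` and the exact
order of magnitude of the exceptional set. The count is that of MP_557161_ag: the slopes bound the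
exponents of the relations, up to proportionality, and each relation is a nontrivial algebraic
equation for the coefficients on almost all pencils of Weil polynomials, by the expansions of the
roots at infinity.
-/

set_option autoImplicit false

namespace Pool.Agent.Results.MP_c0b458_ag.SharpExceptionalSet

open Pool.Agent.H857.SX Pool.Agent.H857.MX Pool.Agent.Q64.NH

/-- **The exceptional set.** -/
theorem result {I : Type} [Fintype I] (g : I → ℕ) (hg : ∀ i, 0 < g i) (r D c : ℕ) (hD : 0 < D) :
    ∃ C : ℝ, 0 < C ∧ ∀ (p : ℕ) [Fact p.Prime] (a : ℕ), 0 < a →
      ((families g p a).Finite ∧
        ∏ i, Real.sqrt ((p : ℝ) ^ a) ^ (g i * (g i + 1) / 2) ≤ C * (families g p a).ncard ∧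
        (families g p a).ncard ≤ C * ∏ i, Real.sqrt ((p : ℝ) ^ a) ^ (g i * (g i + 1) / 2)) ∧
      ∀ (w : Fin r → ℕ) (ρ : Fin r → ℂ), (∀ k, w k < c ∧ IsWeilNumber p a D (w k) (ρ k)) →
        (({f ∈ families g p a | ¬ Independent f (p ^ a) ρ}.ncard : ℝ) ≤
            C * (rate g ((p : ℝ) ^ a) * (families g p a).ncard) ∧
          rate g ((p : ℝ) ^ a) * (families g p a).ncard ≤
            C * {f ∈ families g p a | ¬ Independent f (p ^ a) ρ}.ncard) ∧
        ∀ f ∈ families g p a, Independent f (p ^ a) ρ →
          NumHodgeReduces (RootsIn (Generated (p ^ a) ρ)) (p ^ a) f :=
  Pool.Agent.H857.MX.master g hg r D c hD (fun q f R => NumHodgeReduces (RootsIn R) q f)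
    fun _ _ _ hq _ h0 hR => numHodgeReduces hq (good_of_noRel hR h0)

end Pool.Agent.Results.MP_c0b458_ag.SharpExceptionalSet
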